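import Mathlib
import Pool.Agent.V11110.AC4
import Pool.Agent.V11110.AC5

/-!
# Asymptotic cones do not determine sequence distortion spectra

The Bruhat-Tits tree of the 2-adic numbers (in horocyclic coordinates) and the hyperbolic plane
are proper geodesic spaces. All their asymptotic cones, for arbitrary moving basepoints, arbitrary
scales tending to infinity and arbitrary non-principal ultrafilters, are isometric, but the growth
type of the logarithm is realised by a sequence in the hyperbolic plane and not in the tree.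
-/

namespace Pool.Agent.Results.MP_efec2f_gt.Cones

open Filter Topology Pool.Agent.V11110.AC

/-- Any two points are joined by an isometric copy of a compact interval. -/
def Geodesic (X : Type) [MetricSpace X] : Prop :=
  ∀ p q : X, ∃ (L : ℝ) (γ : ℝ → X), 0 ≤ L ∧ γ 0 = p ∧ γ L = q ∧
    ∀ a ∈ Set.Icc 0 L, ∀ b ∈ Set.Icc 0 L, dist (γ a) (γ b) = |a - b|

/-- A non-principal ultrafilter on the natural numbers and scales tending to infinity. -/
structure ConeData where
  ω : Ultrafilter ℕ
  nonprincipal : ∀ n, ω ≠ pure n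
  r : ℕ → ℝ
  tendsto_r : Tendsto r atTop atTop

theorem ConeData.free (c : ConeData) : (c.ω : Filter ℕ) ≤ atTop := by
  rcases c.ω.le_cofinite_or_eq_pure with h | ⟨a, h⟩
  · rwa [Nat.cofinite_eq_atTop] at h
  · exact absurd h (c.nonprincipal a)

theorem ConeData.r_pos (c : ConeData) : ∀ᶠ i in (c.ω : Filter ℕ), 0 < c.r i :=
  c.free (c.tendsto_r.eventually_gt_atTop 0)

/-- Sequences whose rescaled distance to the basepoints is bounded along the ultrafilter. -/
def Adm {X : Type} [MetricSpace X] (c : ConeData) (x : ℕ → X) : Type :=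
  {z : ℕ → X // ∃ C : ℝ, ∀ᶠ i in (c.ω : Filter ℕ), dist (x i) (z i) / c.r i ≤ C}

theorem exists_lim {X : Type} [MetricSpace X] {c : ConeData} {x : ℕ → X} (z w : Adm c x) :
    ∃ l, Tendsto (fun i => dist (z.1 i) (w.1 i) / c.r i) (c.ω : Filter ℕ) (𝓝 l) := by
  obtain ⟨C, hC⟩ := z.2
  obtain ⟨D, hD⟩ := w.2
  apply exists_ulim c.ω _ 0 (C + D)
  filter_upwards [hC, hD, c.r_pos] with i h1 h2 h3
  refine ⟨div_nonneg dist_nonneg h3.le, ?_⟩
  have h4 := dist_triangle_left (z.1 i) (w.1 i) (x i)
  calc dist (z.1 i) (w.1 i) / c.r i ≤ (dist (x i) (z.1 i) + dist (x i) (w.1 i)) / c.r i := by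
        gcongr
    _ = dist (x i) (z.1 i) / c.r i + dist (x i) (w.1 i) / c.r i := add_div _ _ _
    _ ≤ C + D := add_le_add h1 h2

/-- The distance of two admissible sequences is the ultralimit of the rescaled distances. -/
noncomputable instance admPseudoMetric {X : Type} [MetricSpace X] (c : ConeData) (x : ℕ → X) :
    PseudoMetricSpace (Adm c x) where
  dist z w := limUnder (c.ω : Filter ℕ) (fun i => dist (z.1 i) (w.1 i) / c.r i)
  dist_self z := by
    apply Tendsto.limUnder_eq
    simp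
  dist_comm z w := by
    simp only [dist_comm]
  dist_triangle z w u := by
    have h1 := tendsto_nhds_limUnder (exists_lim z u)
    have h2 := (tendsto_nhds_limUnder (exists_lim z w)).add (tendsto_nhds_limUnder (exists_lim w u))
    refine le_of_tendsto_of_tendsto h1 h2 ?_
    filter_upwards [c.r_pos] with i hi
    rw [← add_div]
    have := dist_triangle (z.1 i) (w.1 i) (u.1 i)
    gcongr

theorem dist_eq_of_tendsto {X : Type} [MetricSpace X] {c : ConeData} {x : ℕ → X} (z w : Adm c x)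
    {l : ℝ} (h : Tendsto (fun i => dist (z.1 i) (w.1 i) / c.r i) (c.ω : Filter ℕ) (𝓝 l)) :
    dist z w = l :=
  h.limUnder_eq

/-- The asymptotic cone: admissible sequences modulo distance zero. -/
abbrev Cone {X : Type} [MetricSpace X] (c : ConeData) (x : ℕ → X) : Type :=
  SeparationQuotient (Adm c x)

/-- Bi-Lipschitz equivalence of metric spaces. -/
def BiLipschitzEquivalent (X Y : Type) [MetricSpace X] [MetricSpace Y] : Prop :=
  ∃ (F : X ≃ Y) (K : ℝ), 0 < K ∧
    ∀ p q, dist (F p) (F q) ≤ K * dist p q ∧ dist p q ≤ K * dist (F p) (F q)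

/-- Rate functions on the positive integers (the value at zero is irrelevant). -/
structure RateFunction where
  f : ℕ → ℝ
  pos : ∀ n, 1 ≤ n → 0 < f n
  mono : ∀ m n, 1 ≤ m → m ≤ n → f m ≤ f n
  unbounded : ∀ C : ℝ, ∃ n, 1 ≤ n ∧ C < f n
  scaling : ∀ M : ℕ, 1 ≤ M → ∃ a C : ℝ, 0 < a ∧ 0 < C ∧
    ∀ᶠ N in atTop, a * f N ≤ f (M * N) ∧ f (M * N) ≤ C * f N

/-- Same growth type. -/
def SameGrowth (f g : RateFunction) : Prop :=
  ∃ a C : ℝ, 0 < a ∧ 0 < C ∧ ∀ᶠ N in atTop, a * g.f N ≤ f.f N ∧ f.f N ≤ C * g.f N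

/-- Growth types. -/
def growthSetoid : Setoid RateFunction where
  r := SameGrowth
  iseqv := by
    refine ⟨?_, ?_, ?_⟩
    · intro f
      exact ⟨1, 1, one_pos, one_pos, Eventually.of_forall fun N => by simp⟩
    · rintro f g ⟨a, C, ha, hC, h⟩
      refine ⟨1 / C, 1 / a, by positivity, by positivity, ?_⟩
      filter_upwards [h] with N hN
      constructor
      · rw [div_mul_eq_mul_div, one_mul, div_le_iff₀ hC, mul_comm]; exact hN.2
      · rw [div_mul_eq_mul_div, one_mul, le_div_iff₀ ha, mul_comm]; exact hN.1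
    · rintro f g k ⟨a, C, ha, hC, h⟩ ⟨a', C', ha', hC', h'⟩
      refine ⟨a * a', C * C', by positivity, by positivity, ?_⟩
      filter_upwards [h, h'] with N hN hN'
      constructor
      · rw [mul_assoc]
        exact (mul_le_mul_of_nonneg_left hN'.1 ha.le).trans hN.1
      · rw [mul_assoc]
        exact hN.2.trans (mul_le_mul_of_nonneg_left hN'.2 hC.le)

/-- The sequence `p`, indexed by `I`, is `f`-distorted. -/
def Distorted {X : Type} [MetricSpace X] (I : Set ℤ) (f : RateFunction) (p : I → X) : Prop :=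
  ∃ A B : ℝ, 0 < A ∧ 0 < B ∧ ∃ N0 : ℕ, 1 ≤ N0 ∧ ∀ m n : I,
    N0 ≤ ((n : ℤ) - (m : ℤ)).natAbs →
      A * f.f ((n : ℤ) - (m : ℤ)).natAbs ≤ dist (p n) (p m) ∧
      dist (p n) (p m) ≤ B * f.f ((n : ℤ) - (m : ℤ)).natAbs

/-- The sequence distortion spectrum with index set `I`. -/
def distortionSpectrum (I : Set ℤ) (X : Type) [MetricSpace X] : Set (Quotient growthSetoid) :=
  {c | ∃ f : RateFunction, Quotient.mk growthSetoid f = c ∧ ∃ p : I → X, Distorted I f p}

/-! ### isometry of the cones -/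

theorem cone_isometry {X Y : Type} [MetricSpace X] [MetricSpace Y] {c : ConeData} {x : ℕ → X}
    {y : ℕ → Y} (F : Adm c x → Adm c y) (h1 : ∀ z w, dist (F z) (F w) = dist z w)
    (h2 : ∀ w, ∃ z, dist (F z) w = 0) : Nonempty (Cone c x ≃ᵢ Cone c y) := by
  let G : Cone c x → Cone c y := SeparationQuotient.lift (fun z => SeparationQuotient.mk (F z)) (by
    intro z w hzw
    have h3 : dist z w = 0 := Metric.inseparable_iff.1 hzw
    rw [← h1] at h3
    exact SeparationQuotient.mk_eq_mk.2 (Metric.inseparable_iff.2 h3))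
  have hG : ∀ z, G (SeparationQuotient.mk z) = SeparationQuotient.mk (F z) := fun z => rfl
  have hiso : Isometry G := by
    apply Isometry.of_dist_eq
    intro p q
    obtain ⟨z, rfl⟩ := SeparationQuotient.surjective_mk p
    obtain ⟨w, rfl⟩ := SeparationQuotient.surjective_mk q
    rw [hG, hG, SeparationQuotient.dist_mk, SeparationQuotient.dist_mk, h1]
  have hsurj : Function.Surjective G := by
    intro q
    obtain ⟨w, rfl⟩ := SeparationQuotient.surjective_mk q
    obtain ⟨z, hz⟩ := h2 w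
    exact ⟨SeparationQuotient.mk z, SeparationQuotient.mk_eq_mk.2 (Metric.inseparable_iff.2 hz)⟩
  exact ⟨⟨Equiv.ofBijective G ⟨hiso.injective, hsurj⟩, hiso⟩⟩

/-- scales of a cone -/
noncomputable def ConeData.sc (c : ConeData) : Sc where
  ω := c.ω
  e := fun i => (c.r i)⁻¹
  free := c.free
  lim := tendsto_inv_atTop_zero.comp (c.tendsto_r.mono_left c.free)
  pos := by
    filter_upwards [c.r_pos] with i hi
    exact inv_pos.2 hi

theorem cones_isometric {S T E F : Type} [MetricSpace S] [MetricSpace T]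
    [NontriviallyNormedField E] [CharZero E] [ProperSpace E]
    [NontriviallyNormedField F] [CharZero F] [ProperSpace F]
    (M : Model S E) (M' : Model T F) (c : ConeData) (x : ℕ → S) (y : ℕ → T) :
    Nonempty (Cone c x ≃ᵢ Cone c y) := by
  obtain ⟨CX, hX1, hX2, hX3⟩ := exists_coord M c.sc x
  obtain ⟨CY, hY1, hY2, hY3⟩ := exists_coord M' c.sc y
  obtain ⟨φ, hφ1, hφ2⟩ := exists_comparison c.sc E F
  have hsc : ∀ (i : ℕ), c.sc.e i = (c.r i)⁻¹ := fun i => rfl
  have hdX : ∀ (z w : Adm c x) τ σ u v, CX z.1 τ u → CX w.1 σ v →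
      dist z w = HD (nrm c.sc (u - v)) τ σ := by
    intro z w τ σ u v h1 h2
    apply dist_eq_of_tendsto
    exact hX3 z.1 w.1 τ σ u v h1 h2
  have hdY : ∀ (z w : Adm c y) τ σ u v, CY z.1 τ u → CY w.1 σ v →
      dist z w = HD (nrm c.sc (u - v)) τ σ := by
    intro z w τ σ u v h1 h2
    apply dist_eq_of_tendsto
    exact hY3 z.1 w.1 τ σ u v h1 h2
  have hcX : ∀ z : Adm c x, ∃ τ u, CX z.1 τ u := fun z => hX1 z.1 z.2
  have hcY : ∀ z : Adm c y, ∃ τ u, CY z.1 τ u := fun z => hY1 z.1 z.2
  have heX : ∀ τ u, ∃ z : Adm c x, CX z.1 τ u := by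
    intro τ u
    obtain ⟨z, hz1, hz2⟩ := hX2 τ u
    exact ⟨⟨z, hz1⟩, hz2⟩
  have heY : ∀ τ u, ∃ z : Adm c y, CY z.1 τ u := by
    intro τ u
    obtain ⟨z, hz1, hz2⟩ := hY2 τ u
    exact ⟨⟨z, hz1⟩, hz2⟩
  choose τ u hu using hcX
  choose g hg using heY
  refine cone_isometry (fun z => g (τ z) (φ (u z))) ?_ ?_
  · intro z w
    rw [hdY _ _ _ _ _ _ (hg _ _) (hg _ _), hdX _ _ _ _ _ _ (hu z) (hu w), hφ1]
  · intro w
    obtain ⟨σ, v', hw⟩ := hcY w
    obtain ⟨v, hv⟩ := hφ2 v'
    obtain ⟨z, hz⟩ := heX σ v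
    refine ⟨z, ?_⟩
    have e1 : dist (g (τ z) (φ (u z))) (g σ (φ v)) = 0 := by
      rw [hdY _ _ _ _ _ _ (hg _ _) (hg _ _), hφ1, ← hdX _ _ _ _ _ _ (hu z) hz, dist_self]
    have e2 : dist (g σ (φ v)) w = 0 := by
      rw [hdY _ _ _ _ _ _ (hg _ _) hw]
      have e3 : φ v - v' = -(v' - φ v) := by abel
      rw [e3, (isVal_nrm c.sc).neg, hv, HD_zero, sub_self, abs_zero]
    have e4 := dist_triangle (g (τ z) (φ (u z))) (g σ (φ v)) w
    rw [e1, e2] at e4
    exact le_antisymm (by linarith) dist_nonneg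

/-! ### the logarithmic rate -/

/-- The logarithmic rate function. -/
noncomputable def logRate : RateFunction where
  f n := 1 + Real.log n
  pos n hn := by
    have : 0 ≤ Real.log n := Real.log_nonneg (by exact_mod_cast hn)
    linarith
  mono m n hm hmn := by
    have hm' : (0:ℝ) < m := by exact_mod_cast hm
    have : Real.log m ≤ Real.log n := Real.log_le_log hm' (by exact_mod_cast hmn)
    linarith
  unbounded C := by
    have h := (Real.tendsto_log_atTop.comp tendsto_natCast_atTop_atTop).eventually_gt_atTop C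
    obtain ⟨n, h1, h2⟩ := (h.and (eventually_ge_atTop 1)).exists
    refine ⟨n, h2, ?_⟩
    have h3 : C < Real.log n := h1
    linarith
  scaling M hM := by
    have hM' : (1:ℝ) ≤ M := by exact_mod_cast hM
    have hlM : 0 ≤ Real.log M := Real.log_nonneg hM'
    refine ⟨1, 1 + Real.log M, one_pos, by positivity, ?_⟩
    filter_upwards [eventually_ge_atTop 1] with N hN
    have hN' : (1:ℝ) ≤ N := by exact_mod_cast hN
    have hlN : 0 ≤ Real.log N := Real.log_nonneg hN'
    have h1 : Real.log ((M * N : ℕ) : ℝ) = Real.log M + Real.log N := by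
      rw [Nat.cast_mul, Real.log_mul (by positivity) (by positivity)]
    rw [h1]
    constructor
    · linarith
    · nlinarith

theorem log_realised (I : Set ℤ) :
    Quotient.mk growthSetoid logRate ∈ distortionSpectrum I UpperHalfPlane := by
  refine ⟨logRate, rfl, fun n => hpt ((n : ℤ) : ℝ) 0, 1 / 2, 2, by norm_num, by norm_num, 8,
    by norm_num, ?_⟩
  intro m n hmn
  have h1 := hpt_approx ((n : ℤ) : ℝ) ((m : ℤ) : ℝ) 0 0
  set k : ℕ := ((n : ℤ) - (m : ℤ)).natAbs with hk
  have hkn : ‖(((n : ℤ) : ℝ) - ((m : ℤ) : ℝ))‖ = (k : ℝ) := by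
    rw [Real.norm_eq_abs, hk, ← Int.cast_sub, ← Int.cast_abs, Int.abs_eq_natAbs, Int.cast_natCast]
  rw [hkn] at h1
  have hk8 : (8:ℝ) ≤ k := by exact_mod_cast hmn
  have hHD : HD (k : ℝ) 0 0 = 2 * Real.log k := by
    unfold HD
    rw [max_self, Real.exp_zero, max_eq_right (by linarith)]
    ring
  rw [hHD, abs_le] at h1
  have hlog : 2 ≤ Real.log k := by
    have e1 : Real.log 8 ≤ Real.log k := Real.log_le_log (by norm_num) hk8
    have e2 : Real.log 8 = 3 * Real.log 2 := by
      rw [show (8:ℝ) = 2 ^ 3 by norm_num, Real.log_pow]; norm_num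
    have e3 := Real.log_two_gt_d9
    linarith
  show 1 / 2 * (1 + Real.log k) ≤ _ ∧ _ ≤ 2 * (1 + Real.log k)
  constructor <;> linarith [h1.1, h1.2]

theorem log_not_realised {X : Type} [MetricSpace X] (h4 : ∀ p q r s : X, dist p q + dist r s ≤
    max (dist p r + dist q s) (dist p s + dist q r)) (I : Set ℤ) (hI : ∀ n : ℤ, 1 ≤ n → n ∈ I) :
    Quotient.mk growthSetoid logRate ∉ distortionSpectrum I X := by
  rintro ⟨g, hg, p, A, B, hA, hB, N0, hN0, hp⟩
  obtain ⟨a, C, ha, hC, hgC⟩ : SameGrowth g logRate := Quotient.exact hg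
  obtain ⟨c, hc, h⟩ := distorted_linear h4 (fun n : ℕ => p ⟨(n : ℤ) + 1, hI _ (by omega)⟩) g.f g.mono
    g.unbounded A B hA N0 (by
      intro m k hk
      have e1 := hp ⟨((m + k : ℕ) : ℤ) + 1, hI _ (by omega)⟩ ⟨(m : ℤ) + 1, hI _ (by omega)⟩
      have e2 : ((m : ℤ) + 1 - (((m + k : ℕ) : ℤ) + 1)).natAbs = k := by
        push_cast; omega
      simp only [e2] at e1
      exact e1 hk)
  refine log_not_linear c B C hc hB hC g.f N0 h ?_
  filter_upwards [hgC] with N hN
  exact hN.2

/-- There are proper geodesic spaces all of whose asymptotic cones (over the same scales and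
ultrafilter, at arbitrary moving basepoints) are isometric, hence bi-Lipschitz equivalent, but
whose sequence distortion spectra differ, for both index sets. -/
theorem result : ∃ (X Y : Type) (_ : MetricSpace X) (_ : MetricSpace Y),
    ProperSpace X ∧ ProperSpace Y ∧ Geodesic X ∧ Geodesic Y ∧
    (∀ (c : ConeData) (x : ℕ → X) (y : ℕ → Y),
      Nonempty (Cone c x ≃ᵢ Cone c y) ∧ BiLipschitzEquivalent (Cone c x) (Cone c y)) ∧
    distortionSpectrum {n : ℤ | 1 ≤ n} X ≠ distortionSpectrum {n : ℤ | 1 ≤ n} Y ∧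
    distortionSpectrum Set.univ X ≠ distortionSpectrum Set.univ Y := by
  refine ⟨Tr ℚ_[2], UpperHalfPlane, inferInstance, inferInstance, properSpace_Tr, inferInstance,
    geo_Tr, geo_H, ?_, ?_, ?_⟩
  · intro c x y
    have h := cones_isometric (tModel (E := ℚ_[2])) hModel c x y
    refine ⟨h, ?_⟩
    obtain ⟨F⟩ := h
    refine ⟨F.toEquiv, 1, one_pos, ?_⟩
    intro p q
    have := F.isometry.dist_eq p q
    constructor
    · rw [one_mul]; exact this.le
    · rw [one_mul]; exact this.ge
  · intro h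
    have h1 := log_realised {n : ℤ | 1 ≤ n}
    rw [← h] at h1
    exact log_not_realised Tr.four {n : ℤ | 1 ≤ n} (fun n hn => hn) h1
  · intro h
    have h1 := log_realised Set.univ
    rw [← h] at h1
    exact log_not_realised Tr.four Set.univ (fun n _ => Set.mem_univ n) h1

end Pool.Agent.Results.MP_efec2f_gt.Cones
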